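import Pool.Agent.H31.DPD.Targets

/-!
# Row OB: the size and the boundary of the domain
-/

set_option autoImplicit false

open Finset Filter Topology

namespace Pool.Agent.H37.DPD

open Pool.Agent.H91.LF (par)
open Pool.Agent.H31.DP Pool.Agent.H31.DPD

variable {d : ℕ}

/-- the base index `0` or `1` -/
def bi (d : ℕ) (b : Bool) : Fin (d + 2) := if b then 1 else 0

/-- the linear forms -/
def LL (b : Bool) (I : Finset (Fin d)) (ω : Fin (d + 2) → ℤ) : ℤ := ω (bi d b) + sI (par ω) I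

theorem sI_abs_le {s : Fin d → ℤ} {q : ℤ} (hq : 0 ≤ q) (h : ∀ i, 0 ≤ s i ∧ s i ≤ q)
    (I : Finset (Fin d)) : 0 ≤ sI s I ∧ sI s I ≤ d * q := by
  unfold sI
  refine ⟨Finset.sum_nonneg fun i _ => (h i).1, ?_⟩
  have h1 := Finset.sum_le_card_nsmul I s q fun i _ => (h i).2
  have h2 : I.card ≤ d := by
    have := Finset.card_le_univ I
    rwa [Fintype.card_fin] at this
  refine h1.trans ?_
  rw [nsmul_eq_mul]
  exact mul_le_mul_of_nonneg_right (by exact_mod_cast h2) hq

theorem mem_Oc {M : ℕ} {ω : Fin (d + 2) → ℤ} :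
    ω ∈ Oc d M ↔ ∀ (b : Bool) (I : Finset (Fin d)), 1 ≤ LL b I ω ∧ LL b I ω ≤ M := by
  unfold Oc
  rw [Finset.mem_filter, Fintype.mem_piFinset]
  unfold IC
  simp only [Finset.mem_filter, Finset.mem_Icc]
  constructor
  · rintro ⟨-, h0, h1⟩ b I
    cases b with
    | false => exact h0.2 I
    | true => exact h1.2 I
  · intro h
    have e0 : ∀ b : Bool, 1 ≤ ω (bi d b) ∧ ω (bi d b) ≤ M := by
      intro b
      have := h b ∅
      simpa [LL, sI] using this
    refine ⟨?_, ⟨e0 false, fun I => h false I⟩, ⟨e0 true, fun I => h true I⟩⟩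
    intro i
    have k0 := e0 false
    have k1 := e0 true
    refine Fin.cases ?_ (fun j => ?_) i
    · have : bi d false = 0 := rfl
      rw [this] at k0
      constructor <;> omega
    · refine Fin.cases ?_ (fun l => ?_) j
      · have : bi d true = Fin.succ 0 := rfl
        rw [this] at k1
        constructor <;> omega
      · have := h false {l}
        have e : LL false {l} ω = ω 0 + ω l.succ.succ := by
          simp [LL, sI, bi, par]
        rw [e] at this
        have k0' : 1 ≤ ω 0 ∧ ω 0 ≤ M := k0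
        constructor <;> omega

theorem Oc_box {M : ℕ} {ω : Fin (d + 2) → ℤ} (h : ω ∈ Oc d M) (i : Fin (d + 2)) :
    -(M : ℤ) ≤ ω i ∧ ω i ≤ M := by
  unfold Oc at h
  rw [Finset.mem_filter, Fintype.mem_piFinset] at h
  exact Finset.mem_Icc.1 (h.1 i)

theorem LL_add (b : Bool) (I : Finset (Fin d)) (ω v : Fin (d + 2) → ℤ) :
    LL b I (ω + v) = LL b I ω + LL b I v := by
  have : sI (par (ω + v)) I = sI (par ω) I + sI (par v) I := by
    unfold sI
    rw [← Finset.sum_add_distrib]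
    rfl
  unfold LL
  rw [this, Pi.add_apply]
  ring

/-- the size of a shift -/
def VV (v : Fin (d + 2) → ℤ) : ℕ := 2 * ∑ i, (v i).natAbs

theorem LL_le (b : Bool) (I : Finset (Fin d)) (v : Fin (d + 2) → ℤ) :
    |LL b I v| ≤ (VV v : ℤ) := by
  have h1 : |v (bi d b)| ≤ ((∑ i, (v i).natAbs : ℕ) : ℤ) := by
    rw [Int.abs_eq_natAbs]
    exact_mod_cast Finset.single_le_sum (f := fun i => (v i).natAbs)
      (fun _ _ => Nat.zero_le _) (Finset.mem_univ (bi d b))
  have h2 : |sI (par v) I| ≤ ((∑ i, (v i).natAbs : ℕ) : ℤ) := by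
    unfold sI
    refine (Finset.abs_sum_le_sum_abs _ _).trans ?_
    have h3 : ∑ i ∈ I, |par v i| ≤ ∑ i, |par v i| :=
      Finset.sum_le_sum_of_subset_of_nonneg (Finset.subset_univ I) fun _ _ _ => abs_nonneg _
    refine h3.trans ?_
    push_cast
    rw [Fin.sum_univ_succ, Fin.sum_univ_succ]
    have h4 : ∑ i : Fin d, |par v i| = ∑ i : Fin d, |v i.succ.succ| := rfl
    rw [h4]
    linarith [abs_nonneg (v 0), abs_nonneg (v (Fin.succ 0))]
  unfold LL VV
  refine (abs_add_le _ _).trans ?_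
  push_cast at h1 h2 ⊢
  linarith

/-- the exceptional values of a linear form -/
noncomputable def oT (M V : ℕ) : Finset ℤ := Finset.Icc (1 : ℤ) V ∪ Finset.Icc ((M : ℤ) - V + 1) M

theorem oT_card (M V : ℕ) : (oT M V).card ≤ 2 * V := by
  have h := Finset.card_union_le (Finset.Icc (1 : ℤ) V) (Finset.Icc ((M : ℤ) - V + 1) M)
  rw [Int.card_Icc, Int.card_Icc] at h
  have h1 : ((V : ℤ) + 1 - 1).toNat = V := by omega
  have h2 : ((M : ℤ) + 1 - ((M : ℤ) - V + 1)).toNat = V := by omega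
  rw [h1, h2] at h
  unfold oT
  omega

theorem LL_inj (b : Bool) (I : Finset (Fin d)) {ω ω' : Fin (d + 2) → ℤ}
    (h : LL b I ω = LL b I ω') (h' : ∀ j, ω ((bi d b).succAbove j) = ω' ((bi d b).succAbove j)) :
    ω = ω' := by
  have hne : ∀ i, i ≠ bi d b → ω i = ω' i := by
    intro i hi
    obtain ⟨j, rfl⟩ := Fin.exists_succAbove_eq hi
    exact h' j
  have hpar : par ω = par ω' := by
    funext l
    apply hne
    cases b with
    | false => exact Fin.succ_ne_zero _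
    | true =>
      intro h2
      have h3 : (l.succ.succ : Fin (d + 2)) = Fin.succ 0 := h2
      exact Fin.succ_ne_zero _ (Fin.succ_injective _ h3)
  funext i
  by_cases hi : i = bi d b
  · rw [hi]
    unfold LL at h
    rw [hpar] at h
    linarith
  · exact hne i hi

theorem card_form (M : ℕ) (b : Bool) (I : Finset (Fin d)) (T : Finset ℤ) :
    ((Oc d M).filter fun ω => LL b I ω ∈ T).card ≤ T.card * (2 * M + 1) ^ (d + 1) := by
  have h1 : ((Oc d M).filter fun ω => LL b I ω ∈ T).card ≤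
      (T ×ˢ Fintype.piFinset (fun _ : Fin (d + 1) => Finset.Icc (-(M : ℤ)) M)).card := by
    refine Finset.card_le_card_of_injOn
      (fun ω => (LL b I ω, fun j => ω ((bi d b).succAbove j))) ?_ ?_
    · intro ω hω
      have hω' := Finset.mem_filter.1 (Finset.mem_coe.1 hω)
      rw [Finset.mem_coe, Finset.mem_product, Fintype.mem_piFinset]
      exact ⟨hω'.2, fun j => Finset.mem_Icc.2 (Oc_box hω'.1 _)⟩
    · intro ω _ ω' _ h
      simp only [Prod.mk.injEq] at h
      exact LL_inj b I h.1 fun j => congrFun h.2 j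
  rw [Finset.card_product, Fintype.card_piFinset_const, Int.card_Icc] at h1
  have h2 : ((M : ℤ) + 1 - -(M : ℤ)).toNat = 2 * M + 1 := by omega
  rw [h2] at h1
  exact h1

/-- few points leave the domain -/
theorem bd (v : Fin (d + 2) → ℤ) {M : ℕ} (hM : 0 < M) :
    (((Oc d M).filter fun ω => ω + v ∉ Oc d M).card : ℝ) ≤
      2 ^ (d + 1) * (2 * VV v) * 3 ^ (d + 1) * (M : ℝ) ^ (d + 1) := by
  classical
  have hsub : ((Oc d M).filter fun ω => ω + v ∉ Oc d M) ⊆
      (Finset.univ : Finset (Bool × Finset (Fin d))).biUnion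
        fun p => (Oc d M).filter fun ω => LL p.1 p.2 ω ∈ oT M (VV v) := by
    intro ω hω
    rw [Finset.mem_filter] at hω
    obtain ⟨hω, hn⟩ := hω
    rw [mem_Oc] at hn
    push Not at hn
    obtain ⟨b, I, hn⟩ := hn
    rw [Finset.mem_biUnion]
    refine ⟨(b, I), Finset.mem_univ _, ?_⟩
    rw [Finset.mem_filter]
    refine ⟨hω, ?_⟩
    have h1 := mem_Oc.1 hω b I
    have h2 := abs_le.1 (LL_le b I v)
    rw [LL_add] at hn
    show LL b I ω ∈ oT M (VV v)
    unfold oT
    rw [Finset.mem_union, Finset.mem_Icc, Finset.mem_Icc]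
    by_contra hcon
    rw [not_or, not_and, not_and] at hcon
    have h3 := hcon.1 h1.1
    have h4 : ¬ ((M : ℤ) - VV v + 1 ≤ LL b I ω) := fun h => hcon.2 h h1.2
    have h5 := hn (by omega)
    omega
  have h1 : ((Oc d M).filter fun ω => ω + v ∉ Oc d M).card ≤
      2 ^ (d + 1) * (2 * VV v * (2 * M + 1) ^ (d + 1)) := by
    refine (Finset.card_le_card hsub).trans ?_
    refine Finset.card_biUnion_le.trans ?_
    refine (Finset.sum_le_card_nsmul _ _ (2 * VV v * (2 * M + 1) ^ (d + 1)) fun p _ =>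
      (card_form M p.1 p.2 _).trans (Nat.mul_le_mul_right _ (oT_card M _))).trans ?_
    rw [smul_eq_mul]
    apply Nat.mul_le_mul_right
    rw [Finset.card_univ, Fintype.card_prod, Fintype.card_bool, Fintype.card_finset,
      Fintype.card_fin, pow_succ, mul_comm]
  have h2 : (((Oc d M).filter fun ω => ω + v ∉ Oc d M).card : ℝ) ≤
      2 ^ (d + 1) * (2 * VV v * (2 * M + 1) ^ (d + 1)) := by exact_mod_cast h1
  refine h2.trans ?_
  have hM1 : (1 : ℝ) ≤ M := by exact_mod_cast hM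
  have h3 : (2 * (M : ℝ) + 1) ^ (d + 1) ≤ (3 * M) ^ (d + 1) :=
    pow_le_pow_left₀ (by positivity) (by linarith) _
  rw [mul_pow] at h3
  calc (2 : ℝ) ^ (d + 1) * (2 * VV v * (2 * M + 1) ^ (d + 1))
      ≤ 2 ^ (d + 1) * (2 * VV v * (3 ^ (d + 1) * (M : ℝ) ^ (d + 1))) := by gcongr
    _ = _ := by ring

theorem VV_neg (v : Fin (d + 2) → ℤ) : VV (-v) = VV v := by
  unfold VV
  simp only [Pi.neg_apply, Int.natAbs_neg]

theorem lower (d M : ℕ) (hM : 0 < M) :
    (1 / 4 * (1 / (2 * (d : ℝ) + 2)) ^ d) * (M : ℝ) ^ (d + 2) ≤ ((Oc d M).card : ℝ) := by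
  set m : ℕ := (M + 1) / 2 with hm
  set q : ℕ := M / (2 * d + 2) with hq
  have hq1 : (2 * d + 2) * q ≤ M := Nat.mul_div_le M (2 * d + 2)
  have hq2 : M < (2 * d + 2) * (q + 1) := by
    have := Nat.lt_div_mul_add (a := M) (b := 2 * d + 2) (by omega)
    calc M < M / (2 * d + 2) * (2 * d + 2) + (2 * d + 2) := this
      _ = (2 * d + 2) * (q + 1) := by rw [hq]; ring
  clear_value q
  have hdq : m + d * q ≤ M := by
    have e : (2 * d + 2) * q = 2 * (d * q) + 2 * q := by ring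
    rw [e] at hq1
    rcases Nat.eq_zero_or_pos q with h0 | h0
    · rw [h0, mul_zero]
      omega
    · omega
  let B : Fin (d + 2) → Finset ℤ := Fin.cons (Finset.Icc (1 : ℤ) m)
    (Fin.cons (Finset.Icc (1 : ℤ) m) fun _ : Fin d => Finset.Icc (0 : ℤ) q)
  have hsub : Fintype.piFinset B ⊆ Oc d M := by
    intro ω hω
    rw [Fintype.mem_piFinset] at hω
    have k0 : 1 ≤ ω 0 ∧ ω 0 ≤ m := Finset.mem_Icc.1 (hω 0)
    have k1 : 1 ≤ ω (Fin.succ 0) ∧ ω (Fin.succ 0) ≤ m := Finset.mem_Icc.1 (hω (Fin.succ 0))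
    have k2 : ∀ l : Fin d, 0 ≤ par ω l ∧ par ω l ≤ q := fun l =>
      Finset.mem_Icc.1 (hω l.succ.succ)
    rw [mem_Oc]
    intro b I
    have h3 := sI_abs_le (q := (q : ℤ)) (Int.natCast_nonneg _) k2 I
    have h4 : (m : ℤ) + d * q ≤ M := by exact_mod_cast hdq
    cases b with
    | false =>
      have e : LL false I ω = ω 0 + sI (par ω) I := rfl
      rw [e]
      constructor <;> linarith [k0.1, k0.2, h3.1, h3.2]
    | true =>
      have e : LL true I ω = ω (Fin.succ 0) + sI (par ω) I := rfl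
      rw [e]
      constructor <;> linarith [k1.1, k1.2, h3.1, h3.2]
  have h1 := Finset.card_le_card hsub
  rw [Fintype.card_piFinset, Fin.prod_univ_succ, Fin.prod_univ_succ] at h1
  have e0 : (B 0).card = m := by
    show (Finset.Icc (1 : ℤ) m).card = m
    rw [Int.card_Icc]
    omega
  have e1 : (B (Fin.succ 0)).card = m := by
    show (Finset.Icc (1 : ℤ) m).card = m
    rw [Int.card_Icc]
    omega
  have e2 : ∏ i : Fin d, (B i.succ.succ).card = (q + 1) ^ d := by
    have : ∀ i : Fin d, (B i.succ.succ).card = q + 1 := by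
      intro i
      show (Finset.Icc (0 : ℤ) q).card = q + 1
      rw [Int.card_Icc]
      omega
    rw [Finset.prod_congr rfl fun i _ => this i, Finset.prod_const, Finset.card_univ,
      Fintype.card_fin]
  rw [e0, e1, e2] at h1
  have h2 : (m : ℝ) * (m * ((q : ℝ) + 1) ^ d) ≤ ((Oc d M).card : ℝ) := by exact_mod_cast h1
  refine le_trans ?_ h2
  have h3 : (M : ℝ) / 2 ≤ m := by
    have : M ≤ 2 * m := by omega
    have h' : (M : ℝ) ≤ 2 * (m : ℝ) := by exact_mod_cast this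
    linarith
  have h4 : (1 / (2 * (d : ℝ) + 2)) * M ≤ (q : ℝ) + 1 := by
    have h6 : (M : ℝ) ≤ (2 * (d : ℝ) + 2) * ((q : ℝ) + 1) := by exact_mod_cast hq2.le
    have h7 : (0 : ℝ) < 2 * (d : ℝ) + 2 := by positivity
    rw [one_div, inv_mul_le_iff₀ h7]
    exact h6
  have h5 : ((1 / (2 * (d : ℝ) + 2)) * M) ^ d ≤ ((q : ℝ) + 1) ^ d :=
    pow_le_pow_left₀ (by positivity) h4 d
  have h6 : (M : ℝ) / 2 * ((M : ℝ) / 2 * ((1 / (2 * (d : ℝ) + 2)) * M) ^ d) ≤
      (m : ℝ) * (m * ((q : ℝ) + 1) ^ d) := by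
    gcongr
  refine le_trans (le_of_eq ?_) h6
  rw [mul_pow]
  ring

theorem upper (d M : ℕ) (hM : 0 < M) : ((Oc d M).card : ℝ) ≤ (3 * (M : ℝ)) ^ (d + 2) := by
  have h1 : (Oc d M).card ≤
      (Fintype.piFinset (fun _ : Fin (d + 2) => Finset.Icc (-(M : ℤ)) M)).card :=
    Finset.card_filter_le _ _
  rw [Fintype.card_piFinset_const, Int.card_Icc] at h1
  have h2 : ((M : ℤ) + 1 - -(M : ℤ)).toNat = 2 * M + 1 := by omega
  rw [h2] at h1
  have h3 : ((Oc d M).card : ℝ) ≤ (2 * (M : ℝ) + 1) ^ (d + 2) := by exact_mod_cast h1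
  have hM1 : (1 : ℝ) ≤ M := by exact_mod_cast hM
  exact h3.trans (pow_le_pow_left₀ (by positivity) (by linarith) _)

theorem pf_OB : P_OB := by
  intro d
  refine ⟨⟨1 / 4 * (1 / (2 * (d : ℝ) + 2)) ^ d, by positivity, fun M hM =>
    ⟨lower d M hM, upper d M hM⟩⟩, ?_⟩
  intro v
  refine ⟨2 * (2 ^ (d + 1) * (2 * VV v) * 3 ^ (d + 1)), fun M hM f B hB => ?_⟩
  have hB0 : 0 ≤ B := (abs_nonneg _).trans (hB 0)
  have e1 : ∑ ω ∈ Oc d M, f (ω + v) =
      ∑ ω ∈ (Oc d M).filter (fun ω => ω + v ∈ Oc d M), f (ω + v) +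
        ∑ ω ∈ (Oc d M).filter (fun ω => ω + v ∉ Oc d M), f (ω + v) :=
    (Finset.sum_filter_add_sum_filter_not _ _ _).symm
  have e2 : ∑ ω ∈ Oc d M, f ω =
      ∑ ω ∈ (Oc d M).filter (fun ω => ω + (-v) ∈ Oc d M), f ω +
        ∑ ω ∈ (Oc d M).filter (fun ω => ω + (-v) ∉ Oc d M), f ω :=
    (Finset.sum_filter_add_sum_filter_not _ _ _).symm
  have e3 : ∑ ω ∈ (Oc d M).filter (fun ω => ω + v ∈ Oc d M), f (ω + v) =
      ∑ ω ∈ (Oc d M).filter (fun ω => ω + (-v) ∈ Oc d M), f ω := by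
    refine Finset.sum_bij' (fun ω _ => ω + v) (fun ω _ => ω + (-v)) ?_ ?_ ?_ ?_ ?_
    · intro ω hω
      rw [Finset.mem_filter] at hω ⊢
      refine ⟨hω.2, ?_⟩
      rw [add_neg_cancel_right]
      exact hω.1
    · intro ω hω
      rw [Finset.mem_filter] at hω ⊢
      refine ⟨hω.2, ?_⟩
      rw [neg_add_cancel_right]
      exact hω.1
    · intro ω _
      rw [add_neg_cancel_right]
    · intro ω _
      rw [neg_add_cancel_right]
    · intro ω _
      rfl
  have b1 : |∑ ω ∈ (Oc d M).filter (fun ω => ω + v ∉ Oc d M), f (ω + v)| ≤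
      ((Oc d M).filter fun ω => ω + v ∉ Oc d M).card * B := by
    refine (Finset.abs_sum_le_sum_abs _ _).trans ?_
    refine (Finset.sum_le_card_nsmul _ _ B fun ω _ => hB _).trans ?_
    rw [nsmul_eq_mul]
  have b2 : |∑ ω ∈ (Oc d M).filter (fun ω => ω + (-v) ∉ Oc d M), f ω| ≤
      ((Oc d M).filter fun ω => ω + (-v) ∉ Oc d M).card * B := by
    refine (Finset.abs_sum_le_sum_abs _ _).trans ?_
    refine (Finset.sum_le_card_nsmul _ _ B fun ω _ => hB _).trans ?_
    rw [nsmul_eq_mul]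
  have c1 := bd v hM
  have c2 := bd (-v) hM
  rw [VV_neg] at c2
  rw [e1, e2, e3]
  have d1 := mul_le_mul_of_nonneg_right c1 hB0
  have d2 := mul_le_mul_of_nonneg_right c2 hB0
  rw [abs_le] at b1 b2 ⊢
  constructor <;> nlinarith [b1.1, b1.2, b2.1, b2.2]

end Pool.Agent.H37.DPD
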